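import Pool.Agent.Helper67.BT.Stmts

/-!
LOC: the inequality for all spanning families (change of variables to the Lewis position).
-/

open Finset MeasureTheory

namespace Pool.Agent.Helper67.BT

theorem loc_cov {k : ℕ} (L : E k ≃ₗ[ℝ] E k) : ∃ J : ℝ, ∀ f : E k → ℝ,
    (∫ y, f y) = J * ∫ x, f (L x) := by
  let Lc : E k ≃L[ℝ] E k := L.toContinuousLinearEquiv
  refine ⟨|(Lc : E k →L[ℝ] E k).det|, fun f => ?_⟩
  have h := MeasureTheory.integral_image_eq_integral_abs_det_fderiv_smul (volume : Measure (E k))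
    (s := Set.univ) (f := fun x => L x) (f' := fun _ => (Lc : E k →L[ℝ] E k)) MeasurableSet.univ
    (fun x _ => ((Lc : E k →L[ℝ] E k).hasFDerivAt (x := x)).hasFDerivWithinAt)
    (L.injective.injOn) f
  have h2 : (fun x => L x) '' Set.univ = Set.univ := by
    rw [Set.image_univ]; exact L.surjective.range_eq
  rw [h2, Measure.restrict_univ] at h
  rw [h]
  simp only [smul_eq_mul]
  rw [integral_const_mul]

theorem st_LOC (h1 : ST_MAI) (h2 : ST_LEW) : ST_LOC := by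
  intro k
  obtain ⟨ε, hε, hε1, hM⟩ := h1 k
  refine ⟨ε, hε, hε1, fun n a p v hp hpe hS => ?_⟩
  rcases Nat.eq_zero_or_pos k with hk | hk
  · subst hk
    have h0 : ∀ (i : Fin n) (y : E 0), |inner ℝ (a i) y| ^ p = 0 := by
      intro i y
      have hy : y = 0 := Subsingleton.elim _ _
      rw [hy, inner_zero_right, abs_zero, Real.zero_rpow (by linarith)]
    simp only [h0, mul_zero, Finset.sum_const_zero]
    simp
  obtain ⟨L, c, hL⟩ := h2 n k p a hk hp hS
  obtain ⟨J, hJ⟩ := loc_cov L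
  have hp2 : 2 ≤ p := hp.le
  have hp3 : p ≤ 3 := by linarith
  have hmai := hM n c p v hp hpe
  have hZ := Z_pos c hp2 hp3
  obtain ⟨Z, hZe⟩ : ∃ Z, Z = II c p fun _ => 1 := ⟨_, rfl⟩
  obtain ⟨A, hA⟩ : ∃ A, A = II c p fun x => XX c p v x ^ 2 := ⟨_, rfl⟩
  obtain ⟨B, hB⟩ : ∃ B, B = II c p (XX c p v) := ⟨_, rfl⟩
  obtain ⟨D, hD⟩ : ∃ D, D = II c p fun x => ∑ i, v i ^ 2 * (c.s i * |c.z i x| ^ p) := ⟨_, rfl⟩
  have e1 : (∫ y, (∑ i, v i * |inner ℝ (a i) y| ^ p) ^ 2 *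
      Real.exp (-∑ i, |inner ℝ (a i) y| ^ p)) = J * A := by
    rw [hJ, hA]
    simp only [hL]
    rfl
  have e2 : (∫ y, Real.exp (-∑ i, |inner ℝ (a i) y| ^ p)) = J * Z := by
    rw [hJ, hZe]
    simp only [hL]
    unfold II
    simp only [one_mul]
    rfl
  have e3 : (∫ y, (∑ i, v i * |inner ℝ (a i) y| ^ p) *
      Real.exp (-∑ i, |inner ℝ (a i) y| ^ p)) = J * B := by
    rw [hJ, hB]
    simp only [hL]
    rfl
  have e4 : (∫ y, (∑ i, v i ^ 2 * |inner ℝ (a i) y| ^ p) *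
      Real.exp (-∑ i, |inner ℝ (a i) y| ^ p)) = J * D := by
    rw [hJ, hD]
    simp only [hL]
    rfl
  have e5 : ∑ i, c.s i * v i ^ 2 * av c p (fun x => |c.z i x| ^ p) = D / Z := by
    have h3 : av c p (fun x => ∑ i, v i ^ 2 * (c.s i * |c.z i x| ^ p)) = D / Z := by
      rw [hD, hZe]; rfl
    rw [← h3, av_sum c hp2 hp3 Finset.univ (F := fun i x => v i ^ 2 * (c.s i * |c.z i x| ^ p))
      (fun i _ => PG_const_mul _ (PG_const_mul _ (PG_rpow (PG_z c i) (by linarith))))]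
    refine Finset.sum_congr rfl fun i _ => ?_
    rw [av_const_mul, av_const_mul]
    ring
  rw [e5] at hmai
  have e6 : av c p (fun x => XX c p v x ^ 2) = A / Z := by rw [hA, hZe]; rfl
  have e7 : av c p (XX c p v) = B / Z := by rw [hB, hZe]; rfl
  rw [e6, e7] at hmai
  rw [e1, e2, e3, e4]
  rw [← hZe] at hZ
  have h4 : A * Z - B ^ 2 ≤ D * Z := by
    have h5 : A / Z - (B / Z) ^ 2 = (A * Z - B ^ 2) / Z ^ 2 := by
      field_simp
    have h6 : D / Z = D * Z / Z ^ 2 := by field_simp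
    rw [h5, h6] at hmai
    exact (div_le_div_iff_of_pos_right (by positivity)).1 hmai
  nlinarith [mul_le_mul_of_nonneg_left h4 (sq_nonneg J)]

end Pool.Agent.Helper67.BT
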